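import Pool.Agent.Y110.FJ.Stm
import Pool.Agent.Y179.SS.Free
import Pool.Agent.Y430.SS.Lf

/-!
# Semidirect products of free groups with groups acting on the basis
-/

set_option autoImplicit false

namespace Pool.Agent.Y961.FJ

open Pool.Agent.Y462.SS (Closed)
open Pool.Agent.Y110.FJ

variable {C : ∀ (G : Type) [Group G], Prop}

theorem conj_inr {N G : Type} [Group N] [Group G] (φ : G →* MulAut N) (g : G) (n : N) :
    (SemidirectProduct.inr g * SemidirectProduct.inl n * (SemidirectProduct.inr g)⁻¹ :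
      N ⋊[φ] G) = SemidirectProduct.inl (φ g n) := by
  rw [SemidirectProduct.inl_aut, map_inv]

/-- the kernel of the projection -/
theorem ker_sd (hC : Closed C) (F Q : Type) [Group F] [Group Q] (α : Q →* MulAut F) (hF : C F) :
    C ↥(SemidirectProduct.rightHom : F ⋊[α] Q →* Q).ker := by
  have h1 : ∀ x : (SemidirectProduct.rightHom : F ⋊[α] Q →* Q).ker, x.1.right = 1 := fun x => x.2
  refine hC.of_injective _ F (MonoidHom.mk' (fun x => x.1.left) ?_) ?_ hF
  · intro x y
    show (x.1 * y.1).left = _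
    rw [SemidirectProduct.mul_left, h1 x, map_one]
    rfl
  · intro x y hxy
    apply Subtype.ext
    apply SemidirectProduct.ext
    · exact hxy
    · rw [h1, h1]

/-- a finite group acting -/
theorem fin_sd (hC : Closed C) (F Q : Type) [Group F] [Group Q] [Finite Q] (α : Q →* MulAut F)
    (hF : C F) : C (F ⋊[α] Q) :=
  hC.finiteIndex _ (SemidirectProduct.rightHom : F ⋊[α] Q →* Q).ker inferInstance
    (ker_sd hC F Q α hF)

/-- the action of the integers given by a permutation -/
noncomputable def zA {X : Type} (σ : Equiv.Perm X) : Multiplicative ℤ →* MulAut (FreeGroup X) :=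
  (permAut X (Equiv.Perm X)).comp (zpowersHom _ σ)

theorem permAut_of {X P : Type} [Group P] [MulAction P X] (p : P) (x : X) :
    permAut X P p (FreeGroup.of x) = FreeGroup.of (p • x) := by
  simp [permAut]

theorem zA_of {X : Type} (σ : Equiv.Perm X) (n : Multiplicative ℤ) (x : X) :
    zA σ n (FreeGroup.of x) = FreeGroup.of ((σ ^ (Multiplicative.toAdd n)) x) := by
  unfold zA
  rw [MonoidHom.comp_apply, permAut_of, zpowersHom_apply]
  rfl

/-- finite sets -/
theorem fin_set (hC : Closed C) (X : Type) [Finite X] (σ : Equiv.Perm X) :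
    C (FreeGroup X ⋊[zA σ] Multiplicative ℤ) := by
  refine hC.of_injective _
    ((FreeGroup X ⋊[permAut X (Equiv.Perm X)] Equiv.Perm X) × Multiplicative ℤ)
    (MonoidHom.prod (SemidirectProduct.map (MonoidHom.id _) (zpowersHom _ σ) (fun g => rfl))
      SemidirectProduct.rightHom) ?_
    (hC.prod _ _ (fin_sd hC _ _ _ (Pool.Agent.Y179.SS.t_free C hC X)) hC.int)
  intro x y hxy
  apply SemidirectProduct.ext
  · exact congrArg (fun z => z.1.left) hxy
  · exact congrArg (fun z => z.2) hxy

theorem semi {X Y : Type} (ι : Y → X) (ρ : Equiv.Perm Y) (σ : Equiv.Perm X)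
    (h : ∀ y, ι (ρ y) = σ (ι y)) (n : ℤ) (y : Y) : ι ((ρ ^ n) y) = (σ ^ n) (ι y) := by
  have h2 : ∀ y, ι (ρ⁻¹ y) = σ⁻¹ (ι y) := by
    intro y
    rw [Equiv.Perm.eq_inv_iff_eq, ← h]
    simp
  induction n using Int.induction_on generalizing y with
  | zero => rfl
  | succ n ih => rw [zpow_add_one, zpow_add_one, Equiv.Perm.mul_apply, ih, h]; rfl
  | pred n ih => rw [zpow_sub_one, zpow_sub_one, Equiv.Perm.mul_apply, ih, h2]; rfl

/-- the map of semidirect products given by an equivariant map -/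
noncomputable def sdMap {X Y : Type} (ι : Y → X) (ρ : Equiv.Perm Y) (σ : Equiv.Perm X)
    (h : ∀ y, ι (ρ y) = σ (ι y)) :
    FreeGroup Y ⋊[zA ρ] Multiplicative ℤ →* FreeGroup X ⋊[zA σ] Multiplicative ℤ :=
  SemidirectProduct.map (FreeGroup.map ι) (MonoidHom.id _) (by
    intro g
    apply FreeGroup.ext_hom
    intro y
    show FreeGroup.map ι (zA ρ g (FreeGroup.of y)) = zA σ g (FreeGroup.map ι (FreeGroup.of y))
    rw [zA_of, FreeGroup.map.of, FreeGroup.map.of, zA_of, semi ι ρ σ h])

/-- all orbits are finite -/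
theorem fin_orb (hC : Closed C) (X : Type) (σ : Equiv.Perm X)
    (hX : ∀ x, ∃ J : Finset X, x ∈ J ∧ ∀ y, σ y ∈ J ↔ y ∈ J) :
    C (FreeGroup X ⋊[zA σ] Multiplicative ℤ) := by
  classical
  have hun : ∀ i j : {J : Finset X // ∀ y, σ y ∈ J ↔ y ∈ J}, ∀ y, σ y ∈ i.1 ∪ j.1 ↔
      y ∈ i.1 ∪ j.1 := by
    intro i j y
    rw [Finset.mem_union, Finset.mem_union, i.2, j.2]
  have : Nonempty {J : Finset X // ∀ y, σ y ∈ J ↔ y ∈ J} := ⟨⟨∅, by simp⟩⟩
  refine hC.colim {J : Finset X // ∀ y, σ y ∈ J ↔ y ∈ J}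
    (fun i j => ⟨⟨i.1 ∪ j.1, hun i j⟩, Finset.subset_union_left, Finset.subset_union_right⟩)
    (fun s => FreeGroup {x // x ∈ s.1} ⋊[zA (σ.subtypePerm s.2)] Multiplicative ℤ)
    (fun i j h => sdMap (fun x => ⟨x.1, h x.2⟩) _ _ (fun y => rfl))
    (FreeGroup X ⋊[zA σ] Multiplicative ℤ) (fun s => sdMap Subtype.val _ _ (fun y => rfl))
    ?_ ?_ ?_ ?_ ?_ ?_
  · intro i h x
    apply SemidirectProduct.ext
    · exact FreeGroup.map.id' x.left
    · rfl
  · intro i j k h h' x
    apply SemidirectProduct.ext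
    · exact FreeGroup.map.comp _ _ x.left
    · rfl
  · intro i j h x
    apply SemidirectProduct.ext
    · exact FreeGroup.map.comp _ _ x.left
    · rfl
  · intro y
    have h1 : ∀ z : FreeGroup X, ∃ i : {J : Finset X // ∀ y, σ y ∈ J ↔ y ∈ J},
        ∃ x : FreeGroup {x // x ∈ i.1}, FreeGroup.map Subtype.val x = z := by
      intro z
      induction z using FreeGroup.induction_on with
      | C1 => exact ⟨⟨∅, by simp⟩, 1, map_one _⟩
      | of a =>
        obtain ⟨J, hJ1, hJ2⟩ := hX a
        exact ⟨⟨J, hJ2⟩, FreeGroup.of ⟨a, hJ1⟩, by simp⟩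
      | inv_of a h =>
        obtain ⟨i, x, hx⟩ := h
        exact ⟨i, x⁻¹, by rw [map_inv, hx]⟩
      | mul x y hx hy =>
        obtain ⟨i, x', hx'⟩ := hx
        obtain ⟨j, y', hy'⟩ := hy
        refine ⟨⟨i.1 ∪ j.1, hun i j⟩,
          FreeGroup.map (fun z => ⟨z.1, Finset.subset_union_left z.2⟩) x' *
          FreeGroup.map (fun z => ⟨z.1, Finset.subset_union_right z.2⟩) y', ?_⟩
        rw [map_mul, FreeGroup.map.comp, FreeGroup.map.comp, ← hx', ← hy']
        rfl
    obtain ⟨i, x, hx⟩ := h1 y.left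
    refine ⟨i, ⟨x, y.right⟩, ?_⟩
    apply SemidirectProduct.ext
    · exact hx
    · rfl
  · intro i x hx
    refine ⟨i, le_rfl, ?_⟩
    have hinj : Function.Injective (FreeGroup.map (Subtype.val : {x // x ∈ i.1} → X)) :=
      FreeGroup.map_injective Subtype.val_injective
    have h1 : x = 1 := by
      apply SemidirectProduct.ext
      · apply hinj
        have h2 : FreeGroup.map Subtype.val x.left = 1 := congrArg (fun z => z.left) hx
        rw [h2, SemidirectProduct.one_left, map_one]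
      · exact congrArg (fun z => z.right) hx
    rw [h1, map_one]
  · intro i
    exact fin_set hC _ _

/-- the action of the integers by any permutation -/
theorem any_perm (hC : Closed C) (X : Type) (σ : Equiv.Perm X) :
    C (FreeGroup X ⋊[zA σ] Multiplicative ℤ) := by
  classical
  -- the points with a finite orbit
  obtain ⟨Fi, hFi⟩ : ∃ Fi : X → Prop, Fi = fun x => ∃ J : Finset X, x ∈ J ∧
    ∀ y, σ y ∈ J ↔ y ∈ J := ⟨_, rfl⟩
  have hσ : ∀ x, Fi (σ x) ↔ Fi x := by
    intro x
    rw [hFi]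
    constructor
    · rintro ⟨J, h1, h2⟩
      exact ⟨J, (h2 x).1 h1, h2⟩
    · rintro ⟨J, h1, h2⟩
      exact ⟨J, (h2 x).2 h1, h2⟩
  have hσn : ∀ (n : ℤ) x, Fi ((σ ^ n) x) ↔ Fi x := by
    intro n
    induction n using Int.induction_on with
    | zero => intro x; rfl
    | succ n ih =>
      intro x
      rw [zpow_add_one, Equiv.Perm.mul_apply, ih, hσ]
    | pred n ih =>
      intro x
      rw [zpow_sub_one, Equiv.Perm.mul_apply, ih, ← hσ (σ⁻¹ x)]
      simp
  -- the powers are different at the other points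
  have hinf : ∀ x, ¬ Fi x → ∀ n : ℤ, (σ ^ n) x = x → n = 0 := by
    intro x hx n hn
    by_contra h0
    apply hx
    have h1 : 0 < n.natAbs := Int.natAbs_pos.2 h0
    obtain ⟨m, hm⟩ : ∃ m, m = n.natAbs := ⟨_, rfl⟩
    rw [← hm] at h1
    have h2 : (σ ^ m) x = x := by
      rcases Int.natAbs_eq n with h | h
      · rw [h, ← hm, zpow_natCast] at hn
        exact hn
      · rw [h, ← hm, zpow_neg, zpow_natCast] at hn
        exact (Equiv.Perm.inv_eq_iff_eq.1 hn).symm
    have h3 : ∀ k : ℕ, (σ ^ k) x = (σ ^ (k % m)) x := by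
      intro k
      conv_lhs => rw [← Nat.mod_add_div k m]
      rw [pow_add, Equiv.Perm.mul_apply]
      congr 1
      rw [pow_mul]
      generalize k / m = q
      induction q with
      | zero => rfl
      | succ q ih => rw [pow_succ, Equiv.Perm.mul_apply, h2, ih]
    rw [hFi]
    have h4 : ∀ k : ℕ, (σ ^ k) x ∈ (Finset.range m).image (fun k : ℕ => (σ ^ k) x) := by
      intro k
      rw [h3]
      exact Finset.mem_image.2 ⟨k % m, Finset.mem_range.2 (Nat.mod_lt _ h1), rfl⟩
    refine ⟨(Finset.range m).image (fun k : ℕ => (σ ^ k) x), h4 0, fun y => ?_⟩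
    rw [Finset.mem_image]
    constructor
    · rintro ⟨k, hk, hk2⟩
      have h5 : y = (σ ^ (k + (m - 1))) x := by
        have h6 : σ ((σ ^ (k + (m - 1))) x) = σ y := by
          rw [← hk2, ← Equiv.Perm.mul_apply, ← pow_succ',
            show k + (m - 1) + 1 = k + m by omega, pow_add, Equiv.Perm.mul_apply, h2]
        exact (σ.injective h6).symm
      rw [h5]
      exact h4 _
    · intro hy
      obtain ⟨k, hk, rfl⟩ := Finset.mem_image.1 hy
      have := h4 (k + 1)
      rw [pow_succ', Equiv.Perm.mul_apply] at this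
      exact Finset.mem_image.1 this
  -- representatives of the orbits
  obtain ⟨r, hr⟩ : ∃ r : X → X, r = fun x =>
    Quotient.out (Quotient.mk (Equiv.Perm.SameCycle.setoid σ) x) := ⟨_, rfl⟩
  have hr1 : ∀ x, ∃ n : ℤ, (σ ^ n) (r x) = x := by
    intro x
    have h1 : (Equiv.Perm.SameCycle.setoid σ) (r x) x := by
      rw [hr]
      exact Quotient.exact (Quotient.out_eq _)
    exact h1
  have hr2 : ∀ (k : ℤ) x, r ((σ ^ k) x) = r x := by
    intro k x
    rw [hr]
    simp only
    congr 1
    apply Quotient.sound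
    exact ⟨-k, by rw [← Equiv.Perm.mul_apply, ← zpow_add]; simp⟩
  choose ν hν using hr1
  have hν2 : ∀ (k : ℤ) x, ¬ Fi x → ν ((σ ^ k) x) = k + ν x := by
    intro k x hx
    have h1 := hν ((σ ^ k) x)
    rw [hr2] at h1
    have h2 := hν x
    have h3 : ¬ Fi (r x) := by
      rw [← hσn (ν x), h2]
      exact hx
    have h4 : (σ ^ (ν ((σ ^ k) x) - (k + ν x))) (r x) = r x := by
      rw [sub_eq_neg_add, zpow_add, Equiv.Perm.mul_apply, h1, neg_add_rev, zpow_add,
        Equiv.Perm.mul_apply, zpow_neg, zpow_neg, Equiv.Perm.inv_eq_iff_eq,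
        Equiv.Perm.inv_eq_iff_eq, h2]
    have := hinf _ h3 _ h4
    omega
  -- the embedding in a free product
  obtain ⟨T, hT⟩ : ∃ T : Multiplicative ℤ →*
      Monoid.Coprod (FreeGroup {x // Fi x} ⋊[zA (σ.subtypePerm hσ)] Multiplicative ℤ)
        (FreeGroup X), T = Monoid.Coprod.inl.comp SemidirectProduct.inr := ⟨_, rfl⟩
  obtain ⟨f, hf⟩ : ∃ f : FreeGroup X →*
      Monoid.Coprod (FreeGroup {x // Fi x} ⋊[zA (σ.subtypePerm hσ)] Multiplicative ℤ)
        (FreeGroup X), f = FreeGroup.lift (fun x => if h : Fi x then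
          Monoid.Coprod.inl (SemidirectProduct.inl (FreeGroup.of ⟨x, h⟩)) else
          T (Multiplicative.ofAdd (ν x)) * Monoid.Coprod.inr (FreeGroup.of (r x)) *
            (T (Multiplicative.ofAdd (ν x)))⁻¹) := ⟨_, rfl⟩
  have hf1 : ∀ x (h : Fi x), f (FreeGroup.of x) =
      Monoid.Coprod.inl (SemidirectProduct.inl (FreeGroup.of ⟨x, h⟩)) := by
    intro x h
    rw [hf, FreeGroup.lift_apply_of, dif_pos h]
  have hf2 : ∀ x, ¬ Fi x → f (FreeGroup.of x) =
      T (Multiplicative.ofAdd (ν x)) * Monoid.Coprod.inr (FreeGroup.of (r x)) *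
        (T (Multiplicative.ofAdd (ν x)))⁻¹ := by
    intro x h
    rw [hf, FreeGroup.lift_apply_of, dif_neg h]
  have hc : ∀ g, f.comp (zA σ g).toMonoidHom = (MulAut.conj (T g)).toMonoidHom.comp f := by
    intro g
    apply FreeGroup.ext_hom
    intro x
    show f (zA σ g (FreeGroup.of x)) = T g * f (FreeGroup.of x) * (T g)⁻¹
    rw [zA_of]
    by_cases h : Fi x
    · rw [hf1 x h, hf1 _ ((hσn _ x).2 h), hT, MonoidHom.comp_apply, ← map_mul, ← map_inv,
        ← map_mul, conj_inr, zA_of]
      congr 3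
      exact Subtype.ext (semi (Subtype.val : {x // Fi x} → X) (σ.subtypePerm hσ) σ (fun _ => rfl)
        (Multiplicative.toAdd g) ⟨x, h⟩).symm
    · rw [hf2 x h, hf2 _ (fun h' => h ((hσn _ x).1 h')), hr2, hν2 _ _ h, ofAdd_add,
        ofAdd_toAdd, map_mul]
      group
  obtain ⟨Φ, hΦ⟩ : ∃ Φ : FreeGroup X ⋊[zA σ] Multiplicative ℤ →* _, Φ =
    SemidirectProduct.lift f T hc := ⟨_, rfl⟩
  obtain ⟨L, hL⟩ : ∃ L : Monoid.Coprod
      (FreeGroup {x // Fi x} ⋊[zA (σ.subtypePerm hσ)] Multiplicative ℤ) (FreeGroup X) →*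
      FreeGroup X ⋊[zA σ] Multiplicative ℤ,
      L = Monoid.Coprod.lift (sdMap Subtype.val _ _ (fun _ => rfl)) SemidirectProduct.inl :=
    ⟨_, rfl⟩
  have hLT : ∀ n, L (T n) = SemidirectProduct.inr n := by
    intro n
    rw [hT, hL, MonoidHom.comp_apply, Monoid.Coprod.lift_apply_inl]
    exact SemidirectProduct.map_inr _ _ _ _
  have hLf : L.comp f = SemidirectProduct.inl := by
    apply FreeGroup.ext_hom
    intro x
    rw [MonoidHom.comp_apply]
    by_cases h : Fi x
    · rw [hf1 x h, hL, Monoid.Coprod.lift_apply_inl]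
      refine (SemidirectProduct.map_inl _ _ _ _).trans ?_
      rw [FreeGroup.map.of]
    · rw [hf2 x h, map_mul, map_mul, map_inv, hLT, hL, Monoid.Coprod.lift_apply_inr,
        conj_inr, zA_of]
      congr 2
      exact hν x
  have hLΦ : L.comp Φ = MonoidHom.id _ := by
    apply SemidirectProduct.hom_ext
    · rw [MonoidHom.comp_assoc, hΦ, SemidirectProduct.lift_comp_inl, hLf]
      rfl
    · rw [MonoidHom.comp_assoc, hΦ, SemidirectProduct.lift_comp_inr]
      apply MonoidHom.ext
      intro n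
      exact hLT n
  refine hC.of_injective _ _ Φ ?_ (hC.coprod _ _ (fin_orb hC _ _ ?_)
    (Pool.Agent.Y179.SS.t_free C hC X))
  · intro x y hxy
    have h1 := DFunLike.congr_fun hLΦ x
    have h2 := DFunLike.congr_fun hLΦ y
    rw [MonoidHom.comp_apply, MonoidHom.id_apply] at h1 h2
    rw [← h1, ← h2, hxy]
  · rintro ⟨x, hx⟩
    have hx' := hx
    rw [hFi] at hx'
    obtain ⟨J, h1, h2⟩ := hx'
    refine ⟨J.subtype Fi, Finset.mem_subtype.2 h1, fun y => ?_⟩
    rw [Finset.mem_subtype, Finset.mem_subtype]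
    exact h2 y.1

/-- **PERM.** `F(X) ⋊ P` for an action of `P` on the set `X`. -/
theorem t_perm (h : S_EXT) : S_PERM := by
  intro C hE X P _ _ hP
  have hC := hE.base
  refine h C hE (FreeGroup X ⋊[permAut X P] P)
    (SemidirectProduct.rightHom : FreeGroup X ⋊[permAut X P] P →* P).ker
    (ker_sd hC _ _ _ (Pool.Agent.Y179.SS.t_free C hC X)) ?_ ?_
  · exact hC.of_injective _ P
      (QuotientGroup.quotientKerEquivOfSurjective _
        (SemidirectProduct.rightHom_surjective)).toMonoidHom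
      (QuotientGroup.quotientKerEquivOfSurjective _
        (SemidirectProduct.rightHom_surjective)).injective hP
  · intro g hg
    obtain ⟨p, hp⟩ : ∃ p : P, p = g.right := ⟨_, rfl⟩
    obtain ⟨σ, hσ⟩ : ∃ σ : Equiv.Perm X, σ = MulAction.toPerm p := ⟨_, rfl⟩
    have hp0 : ¬ IsOfFinOrder p := by
      rw [isOfFinOrder_iff_pow_eq_one]
      rintro ⟨n, hn, hn1⟩
      apply hg n hn
      rw [MonoidHom.mem_ker, map_pow, SemidirectProduct.rightHom_eq_right, ← hp]
      exact hn1
    have hσn : ∀ (n : ℤ) (x : X), (σ ^ n) x = p ^ n • x := by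
      intro n x
      rw [hσ]
      exact (congrArg (fun e => e x) (map_zpow (MulAction.toPermHom P X) p n)).symm
    obtain ⟨Φ, hΦ⟩ : ∃ Φ : FreeGroup X ⋊[zA σ] Multiplicative ℤ →*
        FreeGroup X ⋊[permAut X P] P,
        Φ = SemidirectProduct.map (MonoidHom.id _) (zpowersHom _ p) (by
          intro n
          apply FreeGroup.ext_hom
          intro x
          show zA σ n (FreeGroup.of x) = permAut X P (zpowersHom _ p n) (FreeGroup.of x)
          rw [zA_of, permAut_of, hσn, zpowersHom_apply]) := ⟨_, rfl⟩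
    have hΦi : Function.Injective Φ := by
      intro x y hxy
      rw [hΦ] at hxy
      apply SemidirectProduct.ext
      · exact congrArg (fun z => z.left) hxy
      · have h1 : p ^ (Multiplicative.toAdd x.right) = p ^ (Multiplicative.toAdd y.right) :=
          congrArg (fun z => z.right) hxy
        exact injective_zpow_iff_not_isOfFinOrder.2 hp0 h1
    have hle : (SemidirectProduct.rightHom : FreeGroup X ⋊[permAut X P] P →* P).ker ⊔
        Subgroup.zpowers g ≤ Φ.range := by
      rw [sup_le_iff, Subgroup.zpowers_le]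
      constructor
      · intro x hx
        refine ⟨⟨x.left, 1⟩, ?_⟩
        rw [hΦ]
        apply SemidirectProduct.ext
        · rfl
        · rw [SemidirectProduct.map_right, map_one]
          exact hx.symm
      · refine ⟨⟨g.left, Multiplicative.ofAdd 1⟩, ?_⟩
        rw [hΦ]
        apply SemidirectProduct.ext
        · rfl
        · rw [SemidirectProduct.map_right, zpowersHom_apply]
          simp [hp]
    exact hC.of_injective _ _
      ((MonoidHom.ofInjective hΦi).symm.toMonoidHom.comp (Subgroup.inclusion hle))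
      ((MonoidHom.ofInjective hΦi).symm.injective.comp (Subgroup.inclusion_injective hle))
      (any_perm hC X σ)

end Pool.Agent.Y961.FJ
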